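import Pool.Agent.helper21.WB.Asm2

/-! Assembly, part 3: conjugacy classes and the conclusion. -/

set_option autoImplicit false
open Matrix MeasureTheory

namespace Pool.Agent.helper21.WB

/-- the conjugacy class in `O^+(4,1)` -/
def cls (Γ : Subgroup GLI) : Set (Subgroup GLI) := {Γ' | Conj Γ Γ'}

theorem Conj.refl (Γ : Subgroup GLI) : Conj Γ Γ := ⟨1, InG.one, fun h => by simp⟩

theorem Conj.symm {Γ Γ' : Subgroup GLI} (h : Conj Γ Γ') : Conj Γ' Γ := by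
  obtain ⟨g, hg, h⟩ := h
  refine ⟨g⁻¹, hg.inv, fun x => ?_⟩
  rw [h]
  have : g⁻¹ * (g⁻¹⁻¹ * x * g⁻¹) * g = x := by group
  rw [this]

theorem Conj.trans {Γ Γ' Γ'' : Subgroup GLI} (h : Conj Γ Γ') (h' : Conj Γ' Γ'') : Conj Γ Γ'' := by
  obtain ⟨g, hg, h⟩ := h
  obtain ⟨g', hg', h'⟩ := h'
  refine ⟨g' * g, hg'.mul hg, fun x => ?_⟩
  rw [h', h]
  have : g⁻¹ * (g'⁻¹ * x * g') * g = (g' * g)⁻¹ * x * (g' * g) := by group
  rw [this]

theorem cls_eq {Γ Γ' : Subgroup GLI} (h : Conj Γ Γ') : cls Γ = cls Γ' := by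
  ext Δ
  exact ⟨fun hΔ => h.symm.trans hΔ, fun hΔ => h.trans hΔ⟩

theorem conj_of_cls_eq {Γ Γ' : Subgroup GLI} (h : cls Γ = cls Γ') : Conj Γ Γ' := by
  have : Γ' ∈ cls Γ' := Conj.refl Γ'
  rw [← h] at this
  exact this

/-- the classes of lattices with a given property -/
def Cl (P : Subgroup GLI → Prop) : Set (Set (Subgroup GLI)) := {C | ∃ Γ, P Γ ∧ C = cls Γ}

/-- a finite subset of `Cl P` has a set of pairwise non conjugate representatives -/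
theorem exists_reps {P : Subgroup GLI → Prop} (T : Finset (Set (Subgroup GLI)))
    (hT : (T : Set (Set (Subgroup GLI))) ⊆ Cl P) :
    ∃ S : Finset (Subgroup GLI), (∀ Γ ∈ S, P Γ ∧ cls Γ ∈ T) ∧
      (∀ Γ ∈ S, ∀ Γ' ∈ S, Γ ≠ Γ' → ¬ Conj Γ Γ') ∧ S.card = T.card := by
  classical
  have h : ∀ C : {C // C ∈ T}, ∃ Γ, P Γ ∧ C.1 = cls Γ := fun C => hT C.2
  choose f hf1 hf2 using h
  have hinj : Function.Injective f := by
    intro C C' hCC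
    apply Subtype.ext
    rw [hf2 C, hf2 C', hCC]
  refine ⟨Finset.univ.image f, ?_, ?_, ?_⟩
  · intro Γ hΓ
    obtain ⟨C, -, rfl⟩ := Finset.mem_image.1 hΓ
    exact ⟨hf1 C, by rw [← hf2 C]; exact C.2⟩
  · intro Γ hΓ Γ' hΓ' hne hc
    obtain ⟨C, -, rfl⟩ := Finset.mem_image.1 hΓ
    obtain ⟨C', -, rfl⟩ := Finset.mem_image.1 hΓ'
    apply hne
    congr 1
    apply Subtype.ext
    rw [hf2 C, hf2 C', cls_eq hc]
  · rw [Finset.card_image_of_injective _ hinj]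
    simp

theorem finite_of_bound {P : Subgroup GLI → Prop} {M : ℝ}
    (h : ∀ S : Finset (Subgroup GLI), (∀ Γ ∈ S, P Γ) →
      (∀ Γ ∈ S, ∀ Γ' ∈ S, Γ ≠ Γ' → ¬ Conj Γ Γ') → (S.card : ℝ) ≤ M) : (Cl P).Finite := by
  by_contra hinf
  obtain ⟨T, hT, hcard⟩ := Set.Infinite.exists_subset_card_eq (show (Cl P).Infinite from hinf)
    (⌊M⌋₊ + 1)
  obtain ⟨S, hS1, hS2, hS3⟩ := exists_reps T hT
  have := h S (fun Γ hΓ => (hS1 Γ hΓ).1) hS2
  rw [hS3, hcard] at this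
  push_cast at this
  have h2 := Nat.lt_floor_add_one M
  linarith

/-- a lattice of covolume at most `V` -/
def PA (V : ℝ) (Γ : Subgroup GLI) : Prop :=
  (∀ γ ∈ Γ, InG γ) ∧ DiscreteTopology Γ ∧
    ∃ F : Set X, MeasurableSet F ∧ (∀ᵐ y ∂μ, ∃! z, z ∈ F ∧ ∃ γ ∈ Γ, act γ y = z) ∧
      μ F ≤ ENNReal.ofReal V

/-- a lattice of covolume at most `V` whose thin part is large -/
def PT (ε R V : ℝ) (Γ : Subgroup GLI) : Prop :=
  (∀ γ ∈ Γ, InG γ) ∧ DiscreteTopology Γ ∧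
    ∃ F : Set X, MeasurableSet F ∧ (∀ᵐ y ∂μ, ∃! z, z ∈ F ∧ ∃ γ ∈ Γ, act γ y = z) ∧
      μ F ≤ ENNReal.ofReal V ∧ ENNReal.ofReal ε * μ F <
        μ (F ∩ {y | ∃ γ ∈ Γ, γ ≠ 1 ∧ -(lift y ⬝ᵥ (J *ᵥ (γ.val *ᵥ lift y))) ≤ 1 + R})

theorem PA_iff {V : ℝ} {Γ : Subgroup GLI} :
    PA V Γ ↔ ∃ F, Lat Γ F ∧ μ F ≤ ENNReal.ofReal V := by
  constructor
  · rintro ⟨h1, h2, F, h3, h4, h5⟩
    exact ⟨F, ⟨⟨h1, h2⟩, ⟨h3, h4⟩, h5.trans_lt ENNReal.ofReal_lt_top⟩, h5⟩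
  · rintro ⟨F, hF, h5⟩
    exact ⟨hF.inG, hF.disc, F, hF.fd.1, hF.fd.2, h5⟩

theorem thin_eq {Γ : Subgroup GLI} (h : ∀ γ ∈ Γ, InG γ) (R : ℝ) :
    {y : X | ∃ γ ∈ Γ, γ ≠ 1 ∧ -(lift y ⬝ᵥ (J *ᵥ (γ.val *ᵥ lift y))) ≤ 1 + R} = thin Γ R := by
  ext y
  constructor
  · rintro ⟨γ, hγ, h1, h2⟩
    refine ⟨γ, hγ, h1, ?_⟩
    unfold ch bl
    rw [lift_act (h γ hγ)]
    exact h2
  · rintro ⟨γ, hγ, h1, h2⟩
    refine ⟨γ, hγ, h1, ?_⟩
    unfold ch bl at h2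
    rw [lift_act (h γ hγ)] at h2
    exact h2

theorem thick_of_not_PT {ε R V : ℝ} {Γ : Subgroup GLI} (hA : PA V Γ) (hT : ¬ PT ε R V Γ) :
    ∃ F, Lat Γ F ∧ μ F ≤ ENNReal.ofReal V ∧ μ (F ∩ thin Γ R) ≤ ENNReal.ofReal ε * μ F := by
  obtain ⟨F, hF, hV⟩ := PA_iff.1 hA
  refine ⟨F, hF, hV, ?_⟩
  by_contra h
  rw [not_le] at h
  refine hT ⟨hF.inG, hF.disc, F, hF.fd.1, hF.fd.2, hV, ?_⟩
  rw [thin_eq hF.inG]
  exact h

theorem main : ∃ ε R : ℝ, 0 < ε ∧ 0 < R ∧ ¬ Filter.Tendsto (fun V : ℝ =>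
      (Nat.card (Cl (PT ε R V)) : ℝ) / (Nat.card (Cl (PA V)) : ℝ)) Filter.atTop (nhds 0) := by
  obtain ⟨ε, R, V₀, hε, hR, hthick⟩ := thick_bound
  obtain ⟨V₁, hmany⟩ := many_lattices
  refine ⟨ε, R, hε, hR, fun htend => ?_⟩
  have hsmall : ∀ᶠ V : ℝ in Filter.atTop,
      (Nat.card (Cl (PT ε R V)) : ℝ) / (Nat.card (Cl (PA V)) : ℝ) < 1 / 2 := by
    have := htend.eventually (Iio_mem_nhds (show (0 : ℝ) < 1 / 2 by norm_num))
    exact this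
  have hlog : ∀ᶠ V : ℝ in Filter.atTop, 200 ≤ Real.log V :=
    Real.tendsto_log_atTop.eventually_ge_atTop _
  obtain ⟨V, h1, hlogV, hVV₀, hVV₁, hV1⟩ := (hsmall.and (hlog.and
    ((Filter.eventually_ge_atTop V₀).and ((Filter.eventually_ge_atTop V₁).and
      (Filter.eventually_ge_atTop (1 : ℝ)))))).exists
  -- finiteness
  have hfinA : (Cl (PA V)).Finite := by
    obtain ⟨M, hM⟩ := wang_bound V
    refine finite_of_bound (M := M) fun S hS hc => hM S (fun Γ hΓ => PA_iff.1 (hS Γ hΓ)) hc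
  have hsub : Cl (PT ε R V) ⊆ Cl (PA V) := by
    rintro C ⟨Γ, ⟨g1, g2, F, g3, g4, g5, -⟩, rfl⟩
    exact ⟨Γ, ⟨g1, g2, F, g3, g4, g5⟩, rfl⟩
  have hfinT : (Cl (PT ε R V)).Finite := hfinA.subset hsub
  set NA := (Cl (PA V)).ncard with hNA
  set NT := (Cl (PT ε R V)).ncard with hNT
  have hcA : Nat.card (Cl (PA V)) = NA := rfl
  have hcT : Nat.card (Cl (PT ε R V)) = NT := rfl
  rw [hcA, hcT] at h1
  -- the complement
  have hdiff : (((Cl (PA V)) \ (Cl (PT ε R V))).ncard : ℝ) ≤ Real.exp ((43 / 200) * V * Real.log V) := by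
    have hfinD : ((Cl (PA V)) \ (Cl (PT ε R V))).Finite := hfinA.subset Set.sdiff_subset
    obtain ⟨S, hS1, hS2, hS3⟩ := exists_reps (P := PA V) hfinD.toFinset (by
      rw [Set.Finite.coe_toFinset]; exact Set.sdiff_subset)
    have := hthick V hVV₀ S ?_ hS2
    · rw [hS3] at this
      rwa [Set.ncard_eq_toFinset_card _ hfinD]
    · intro Γ hΓ
      obtain ⟨hP, hC⟩ := hS1 Γ hΓ
      rw [Set.Finite.mem_toFinset] at hC
      refine thick_of_not_PT hP ?_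
      intro hT
      exact hC.2 ⟨Γ, hT, rfl⟩
  -- the lower bound
  have hlow : Real.exp ((11 / 50) * V * Real.log V) ≤ (NA : ℝ) := by
    obtain ⟨S, hS1, hS2, hS3⟩ := hmany V hVV₁
    refine hS3.trans ?_
    have hinj : Set.InjOn cls (S : Set (Subgroup GLI)) := by
      intro Γ hΓ Γ' hΓ' h
      by_contra hne
      exact hS2 Γ hΓ Γ' hΓ' hne (conj_of_cls_eq h)
    have h3 : cls '' (S : Set (Subgroup GLI)) ⊆ Cl (PA V) := by
      rintro _ ⟨Γ, hΓ, rfl⟩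
      exact ⟨Γ, PA_iff.2 (hS1 Γ hΓ), rfl⟩
    have h4 := Set.ncard_le_ncard h3 hfinA
    rw [Set.ncard_image_of_injOn hinj, Set.ncard_coe_finset] at h4
    exact_mod_cast h4
  have hsum : NA = ((Cl (PA V)) \ (Cl (PT ε R V))).ncard + NT := by
    rw [hNA, hNT]
    exact (Set.ncard_sdiff_add_ncard_of_subset hsub hfinA).symm
  have hNA0 : (0 : ℝ) < NA := lt_of_lt_of_le (Real.exp_pos _) hlow
  have hdiff2 : 2 * Real.exp ((43 / 200) * V * Real.log V) ≤ Real.exp ((11 / 50) * V * Real.log V) := by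
    have e : (11 / 50) * V * Real.log V = (43 / 200) * V * Real.log V + (1 / 200) * V * Real.log V := by ring
    rw [e, Real.exp_add, mul_comm]
    apply mul_le_mul_of_nonneg_left _ (Real.exp_pos _).le
    have : (1 : ℝ) + 1 ≤ Real.exp ((1 / 200) * V * Real.log V) := by
      have h5 := Real.add_one_le_exp ((1 / 200) * V * Real.log V)
      nlinarith
    linarith
  rw [div_lt_iff₀ hNA0] at h1
  have hsum' : (NA : ℝ) = (((Cl (PA V)) \ (Cl (PT ε R V))).ncard : ℝ) + NT := by exact_mod_cast hsum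
  linarith

end Pool.Agent.helper21.WB
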