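import Pool.Agent.helper21.WB.Defs

/-! Basic facts on `O^+(4,1)`, the action and the form. -/

set_option autoImplicit false
open Matrix MeasureTheory

namespace Pool.Agent.helper21.WB

theorem J_mul_J : J * J = 1 := by
  simp [J, Matrix.fromBlocks_multiply]

theorem J_transpose : Jᵀ = J := by
  simp [J, Matrix.fromBlocks_transpose]

theorem bl_apply (v w : I → ℝ) : bl v w = ∑ i : Fin 4, v (Sum.inl i) * w (Sum.inl i) - v o * w o := by
  unfold bl
  have : J *ᵥ w = Sum.elim (fun i => w (Sum.inl i)) (fun _ => - w o) := by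
    ext i
    rcases i with i | i
    · simp [J, Matrix.mulVec, dotProduct, Fintype.sum_sum_type, Matrix.fromBlocks_apply₁₁,
        Matrix.fromBlocks_apply₁₂, Matrix.one_apply]
    · simp [J, Matrix.mulVec, dotProduct, Fintype.sum_sum_type, Matrix.fromBlocks_apply₂₁,
        Matrix.fromBlocks_apply₂₂]
  rw [this]
  simp [dotProduct, Fintype.sum_sum_type]
  ring

theorem bl_comm (v w : I → ℝ) : bl v w = bl w v := by
  rw [bl_apply, bl_apply]
  congr 1
  · exact Finset.sum_congr rfl (fun i _ => mul_comm _ _)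
  · ring

theorem bl_add_left (u v w : I → ℝ) : bl (u + v) w = bl u w + bl v w := by
  simp only [bl_apply, Pi.add_apply, add_mul, Finset.sum_add_distrib]; ring

theorem bl_add_right (u v w : I → ℝ) : bl u (v + w) = bl u v + bl u w := by
  rw [bl_comm, bl_add_left, bl_comm v, bl_comm w]

theorem bl_smul_left (c : ℝ) (v w : I → ℝ) : bl (c • v) w = c * bl v w := by
  simp only [bl_apply, Pi.smul_apply, smul_eq_mul, mul_sub, Finset.mul_sum]
  congr 1
  · exact Finset.sum_congr rfl (fun i _ => by ring)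
  · ring

theorem bl_smul_right (c : ℝ) (v w : I → ℝ) : bl v (c • w) = c * bl v w := by
  rw [bl_comm, bl_smul_left, bl_comm]

theorem bl_sub_left (u v w : I → ℝ) : bl (u - v) w = bl u w - bl v w := by
  simp only [bl_apply, Pi.sub_apply, sub_mul, Finset.sum_sub_distrib]; ring

theorem bl_sub_right (u v w : I → ℝ) : bl u (v - w) = bl u v - bl u w := by
  rw [bl_comm, bl_sub_left, bl_comm v, bl_comm w]

/-- Lorentz matrices preserve the form. -/
theorem bl_mulVec {A : Mat} (hA : Aᵀ * J * A = J) (v w : I → ℝ) :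
    bl (A *ᵥ v) (A *ᵥ w) = bl v w := by
  unfold bl
  rw [Matrix.mulVec_mulVec, Matrix.dotProduct_mulVec, Matrix.vecMul_mulVec,
    ← Matrix.mul_assoc, hA, ← Matrix.dotProduct_mulVec]

/-- The other relation `A J A^T = J`. -/
theorem mul_J_transpose {A : Mat} (hA : Aᵀ * J * A = J) : A * J * Aᵀ = J := by
  have h1 : (J * Aᵀ * J) * A = 1 := by
    rw [Matrix.mul_assoc J, Matrix.mul_assoc J, hA, J_mul_J]
  have h2 : A * (J * Aᵀ * J) = 1 := mul_eq_one_comm.1 h1
  calc A * J * Aᵀ = A * (J * Aᵀ * J) * J := by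
        simp only [Matrix.mul_assoc, J_mul_J, Matrix.mul_one]
    _ = J := by rw [h2, Matrix.one_mul]

theorem row_bl (A : Mat) (i j : I) : (A * J * Aᵀ) i j = bl (A i) (A j) := by
  unfold bl
  rw [Matrix.mul_assoc, Matrix.mul_apply, dotProduct]
  refine Finset.sum_congr rfl (fun k _ => ?_)
  rw [Matrix.mul_apply, Matrix.mulVec, dotProduct]
  rfl

theorem J_oo : J o o = -1 := by simp [J]

/-- the vector `(-A_{0,spatial}, A_{00})` is timelike -/
theorem bl_row {A : Mat} (hA : Aᵀ * J * A = J) :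
    bl (fun j => (if j = o then (1:ℝ) else -1) * A o j)
        (fun j => (if j = o then (1:ℝ) else -1) * A o j) = -1 := by
  have e := congrFun (congrFun (mul_J_transpose hA) o) o
  rw [row_bl, J_oo, bl_apply] at e
  rw [bl_apply]
  simpa using e

theorem bl_col {A : Mat} (hA : Aᵀ * J * A = J) :
    bl (fun j => A j o) (fun j => A j o) = -1 := by
  have e := row_bl Aᵀ o o
  rw [Matrix.transpose_transpose, hA, J_oo] at e
  exact e.symm

theorem transpose_lor {A : Mat} (hA : Aᵀ * J * A = J) : (Aᵀ)ᵀ * J * Aᵀ = J := by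
  rw [Matrix.transpose_transpose]; exact mul_J_transpose hA

theorem lift_inl (y : X) (i : Fin 4) : lift y (Sum.inl i) = y i := rfl

theorem lift_inr (y : X) : lift y o = Real.sqrt (1 + ∑ i, y i ^ 2) := rfl

theorem one_le_norm (y : X) : 1 ≤ 1 + ∑ i, y i ^ 2 := by
  have : 0 ≤ ∑ i, y i ^ 2 := Finset.sum_nonneg (fun i _ => sq_nonneg _)
  linarith

theorem lift_o_pos (y : X) : 1 ≤ lift y o := by
  rw [lift_inr]
  exact Real.one_le_sqrt.2 (one_le_norm y)

theorem lift_o_sq (y : X) : lift y o ^ 2 = 1 + ∑ i, y i ^ 2 := by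
  rw [lift_inr, Real.sq_sqrt (by linarith [one_le_norm y])]

theorem bl_lift (y : X) : bl (lift y) (lift y) = -1 := by
  rw [bl_apply]
  have := lift_o_sq y
  simp only [lift_inl]
  have h : ∑ i : Fin 4, y i * y i = ∑ i, y i ^ 2 := Finset.sum_congr rfl (fun i _ => by ring)
  rw [h]; nlinarith

theorem eq_lift {v : I → ℝ} (h : bl v v = -1) (h0 : 0 < v o) :
    v = lift (fun i => v (Sum.inl i)) := by
  ext i
  rcases i with i | i
  · rfl
  · have h1 : v o ^ 2 = 1 + ∑ i : Fin 4, v (Sum.inl i) ^ 2 := by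
      rw [bl_apply] at h
      have h2 : ∑ i : Fin 4, v (Sum.inl i) * v (Sum.inl i) = ∑ i : Fin 4, v (Sum.inl i) ^ 2 :=
        Finset.sum_congr rfl (fun i _ => by ring)
      rw [h2] at h; nlinarith
    show v o = lift _ o
    rw [lift_inr, ← h1, Real.sqrt_sq h0.le]

theorem lift_injective : Function.Injective lift := by
  intro x y h
  ext i
  exact congrFun h (Sum.inl i)

/-- Cauchy–Schwarz for spatial parts. -/
theorem cs_spatial (v w : Fin 4 → ℝ) : (∑ i, v i * w i) ^ 2 ≤ (∑ i, v i ^ 2) * (∑ i, w i ^ 2) :=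
  Finset.sum_mul_sq_le_sq_mul_sq _ _ _

/-- Reversed Cauchy–Schwarz: two future vectors, one timelike and one causal, have negative product. -/
theorem bl_neg {v w : I → ℝ} (hv : bl v v < 0) (hv0 : 0 < v o) (hw : bl w w ≤ 0) (hw0 : 0 < w o) :
    bl v w < 0 := by
  rw [bl_apply] at *
  have e1 : ∑ i : Fin 4, v (Sum.inl i) * v (Sum.inl i) = ∑ i : Fin 4, v (Sum.inl i) ^ 2 :=
    Finset.sum_congr rfl (fun i _ => by ring)
  have e2 : ∑ i : Fin 4, w (Sum.inl i) * w (Sum.inl i) = ∑ i : Fin 4, w (Sum.inl i) ^ 2 :=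
    Finset.sum_congr rfl (fun i _ => by ring)
  rw [e1] at hv; rw [e2] at hw
  have cs := cs_spatial (fun i => v (Sum.inl i)) (fun i => w (Sum.inl i))
  have hw1 : 0 ≤ ∑ i : Fin 4, w (Sum.inl i) ^ 2 := Finset.sum_nonneg (fun i _ => sq_nonneg _)
  have hv1 : 0 ≤ ∑ i : Fin 4, v (Sum.inl i) ^ 2 := Finset.sum_nonneg (fun i _ => sq_nonneg _)
  set a := ∑ i : Fin 4, v (Sum.inl i) ^ 2
  set b := ∑ i : Fin 4, w (Sum.inl i) ^ 2
  set c := ∑ i : Fin 4, v (Sum.inl i) * w (Sum.inl i)
  have hlt : c ^ 2 < (v o * w o) ^ 2 := by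
    have h1 : a < v o ^ 2 := by nlinarith
    have h2 : b ≤ w o ^ 2 := by nlinarith
    have h3 : a * b ≤ a * w o ^ 2 := by gcongr
    have h4 : a * w o ^ 2 < v o ^ 2 * w o ^ 2 := by
      have : 0 < w o ^ 2 := by positivity
      gcongr
    calc c ^ 2 ≤ a * b := cs
      _ < (v o * w o) ^ 2 := by rw [mul_pow]; linarith
  have := abs_lt_of_sq_lt_sq hlt (by positivity)
  have := (abs_lt.1 this).2
  linarith

theorem InG.mul {g h : GLI} (hg : InG g) (hh : InG h) : InG (g * h) := by
  obtain ⟨g1, g2⟩ := hg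
  obtain ⟨h1, h2⟩ := hh
  refine ⟨?_, ?_⟩
  · have : ((g * h : GLI).val) = g.val * h.val := rfl
    rw [this, Matrix.transpose_mul]
    calc (h.val)ᵀ * (g.val)ᵀ * J * (g.val * h.val) = (h.val)ᵀ * ((g.val)ᵀ * J * g.val) * h.val := by
          simp only [Matrix.mul_assoc]
      _ = J := by rw [g1, h1]
  · -- `(g h)_{00} = - bl (J g^T e_0)…`: rows of `g` and columns of `h` are timelike
    have hv := bl_row g1
    have hw := bl_col h1
    have hn := bl_neg (v := fun j => (if j = o then (1:ℝ) else -1) * g.val o j)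
      (w := fun j => h.val j o) (by rw [hv]; norm_num) (by simpa using g2) (by rw [hw]; norm_num) h2
    have : ((g * h : GLI).val) o o
        = - bl (fun j => (if j = o then (1:ℝ) else -1) * g.val o j) (fun j => h.val j o) := by
      have e : ((g * h : GLI).val) = g.val * h.val := rfl
      rw [e, bl_apply, Matrix.mul_apply, Fintype.sum_sum_type]
      simp [add_comm]
    show 0 < ((g * h : GLI).val) o o
    rw [this]; linarith

theorem InG.inv_val {g : GLI} (hg : InG g) : (g⁻¹ : GLI).val = J * (g.val)ᵀ * J := by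
  have h1 : (J * (g.val)ᵀ * J) * g.val = 1 := by
    rw [Matrix.mul_assoc J, Matrix.mul_assoc J, hg.1, J_mul_J]
  have h2 : (g⁻¹ : GLI).val * g.val = 1 := by
    rw [← Units.val_mul, inv_mul_cancel, Units.val_one]
  have h3 : g.val * (g⁻¹ : GLI).val = 1 := by
    rw [← Units.val_mul, mul_inv_cancel, Units.val_one]
  calc (g⁻¹ : GLI).val = (J * (g.val)ᵀ * J) * g.val * (g⁻¹ : GLI).val := by rw [h1, Matrix.one_mul]
    _ = J * (g.val)ᵀ * J := by rw [Matrix.mul_assoc, h3, Matrix.mul_one]

theorem InG.inv {g : GLI} (hg : InG g) : InG g⁻¹ := by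
  have e := hg.inv_val
  refine ⟨?_, ?_⟩
  · rw [e]
    have h := mul_J_transpose hg.1
    rw [Matrix.transpose_mul, Matrix.transpose_mul, Matrix.transpose_transpose, J_transpose]
    calc J * (g.val * J) * J * (J * (g.val)ᵀ * J)
        = J * (g.val * J * (J * J) * (g.val)ᵀ) * J := by simp only [Matrix.mul_assoc]
      _ = J * (g.val * J * (g.val)ᵀ) * J := by rw [J_mul_J, Matrix.mul_one]
      _ = J := by rw [h, J_mul_J, Matrix.one_mul]
  · rw [e]
    have : (J * (g.val)ᵀ * J) o o = g.val o o := by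
      simp [J, Matrix.mul_apply, Fintype.sum_sum_type]
    rw [this]; exact hg.2

theorem InG.one : InG (1 : GLI) := by
  refine ⟨by simp, by simp⟩

/-- `O^+(4,1)` as a subgroup. -/
def G : Subgroup GLI where
  carrier := {g | InG g}
  mul_mem' := fun ha hb => InG.mul ha hb
  one_mem' := InG.one
  inv_mem' := fun ha => InG.inv ha

theorem mem_G {g : GLI} : g ∈ G ↔ InG g := Iff.rfl

theorem lift_act {g : GLI} (hg : InG g) (y : X) : lift (act g y) = g.val *ᵥ lift y := by
  have h1 : bl (g.val *ᵥ lift y) (g.val *ᵥ lift y) = -1 := by rw [bl_mulVec hg.1, bl_lift]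
  have h2 : 0 < (g.val *ᵥ lift y) o := by
    have hv := bl_row hg.1
    have hn := bl_neg (v := fun j => (if j = o then (1:ℝ) else -1) * g.val o j)
      (w := lift y) (by rw [hv]; norm_num) (by simpa using hg.2) (by rw [bl_lift]; norm_num)
      (by linarith [lift_o_pos y])
    have : (g.val *ᵥ lift y) o
        = - bl (fun j => (if j = o then (1:ℝ) else -1) * g.val o j) (lift y) := by
      rw [bl_apply, Matrix.mulVec, dotProduct, Fintype.sum_sum_type]
      simp [add_comm]
    rw [this]; linarith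
  exact (eq_lift h1 h2).symm

theorem act_mul {g h : GLI} (hh : InG h) (y : X) :
    act (g * h) y = act g (act h y) := by
  ext i
  show ((g * h : GLI).val *ᵥ lift y) (Sum.inl i) = (g.val *ᵥ lift (act h y)) (Sum.inl i)
  rw [lift_act hh, Matrix.mulVec_mulVec]; rfl

theorem act_one (y : X) : act 1 y = y := by
  ext i
  show ((1 : GLI).val *ᵥ lift y) (Sum.inl i) = y i
  simp [lift_inl]

theorem act_inv_act {g : GLI} (hg : InG g) (y : X) : act g⁻¹ (act g y) = y := by
  rw [← act_mul hg, inv_mul_cancel, act_one]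

theorem act_act_inv {g : GLI} (hg : InG g) (y : X) : act g (act g⁻¹ y) = y := by
  rw [← act_mul hg.inv, mul_inv_cancel, act_one]

theorem ch_comm (x y : X) : ch x y = ch y x := by unfold ch; rw [bl_comm]

theorem ch_act {g : GLI} (hg : InG g) (x y : X) : ch (act g x) (act g y) = ch x y := by
  unfold ch; rw [lift_act hg, lift_act hg, bl_mulVec hg.1]

theorem hd_act {g : GLI} (hg : InG g) (x y : X) : hd (act g x) (act g y) = hd x y := by
  unfold hd; rw [ch_act hg]

theorem hd_comm (x y : X) : hd x y = hd y x := by unfold hd; rw [ch_comm]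

theorem lift_zero (i : I) : lift 0 i = if i = o then 1 else 0 := by
  rcases i with i | i
  · simp [lift_inl]
  · simp [lift]

theorem mulVec_lift_zero (A : Mat) (i : I) : (A *ᵥ lift 0) i = A i o := by
  rw [Matrix.mulVec, dotProduct]
  simp [lift_zero]

/-- `gch g h` is `cosh` of the distance of `g·0` and `h·0`. -/
theorem gch_eq {g h : GLI} (hg : InG g) (hh : InG h) : gch g h = ch (act g 0) (act h 0) := by
  rw [← ch_act hg.inv (act g 0), act_inv_act hg, ← act_mul hh]
  unfold ch gch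
  rw [lift_act (hg.inv.mul hh), bl_apply]
  simp [mulVec_lift_zero, lift_zero]

theorem gd_eq {g h : GLI} (hg : InG g) (hh : InG h) : gd g h = hd (act g 0) (act h 0) := by
  unfold gd hd; rw [gch_eq hg hh]

theorem one_le_ch (x y : X) : 1 ≤ ch x y := by
  unfold ch
  rw [bl_apply]
  simp only [lift_inl]
  have cs := cs_spatial x y
  have hx := lift_o_sq x
  have hy := lift_o_sq y
  have hx1 := lift_o_pos x
  have hy1 := lift_o_pos y
  have hy2 : 0 ≤ ∑ i : Fin 4, y i ^ 2 := Finset.sum_nonneg (fun i _ => sq_nonneg _)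
  have hx2 : 0 ≤ ∑ i : Fin 4, x i ^ 2 := Finset.sum_nonneg (fun i _ => sq_nonneg _)
  set a := ∑ i : Fin 4, x i ^ 2
  set b := ∑ i : Fin 4, y i ^ 2
  set c := ∑ i : Fin 4, x i * y i
  -- want: `1 + c ≤ lift x o * lift y o`
  have h : (1 + c) ^ 2 ≤ (lift x o * lift y o) ^ 2 := by
    rw [mul_pow, hx, hy]
    have : 2 * c ≤ a + b := by
      have : 0 ≤ ∑ i : Fin 4, (x i - y i) ^ 2 := Finset.sum_nonneg (fun i _ => sq_nonneg _)
      have e : ∑ i : Fin 4, (x i - y i) ^ 2 = a + b - 2 * c := by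
        simp only [a, b, c, Finset.mul_sum, ← Finset.sum_add_distrib, ← Finset.sum_sub_distrib]
        exact Finset.sum_congr rfl (fun i _ => by ring)
      linarith
    nlinarith
  have := abs_le_of_sq_le_sq h (by positivity)
  have := (abs_le.1 this).2
  linarith

theorem ch_self (x : X) : ch x x = 1 := by unfold ch; rw [bl_lift]; norm_num

theorem hd_self (x : X) : hd x x = 0 := by
  unfold hd; rw [ch_self, ← Real.cosh_zero, Real.arcosh_cosh le_rfl]

theorem hd_nonneg (x y : X) : 0 ≤ hd x y := Real.arcosh_nonneg (one_le_ch x y)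

theorem cosh_hd (x y : X) : Real.cosh (hd x y) = ch x y := Real.cosh_arcosh (one_le_ch x y)

end Pool.Agent.helper21.WB
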