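import Pool.Agent.helper21.WB.Top

/-! Assembly, part 1: bounds for sets of pairwise non conjugate lattices. -/

set_option autoImplicit false
open Matrix MeasureTheory

namespace Pool.Agent.helper21.WB

def Net.weaken {Γ : Subgroup GLI} {η D s s' R₁ : ℝ} {n : ℕ} (N : Net Γ η D s R₁ n) (h : s' ≤ s) :
    Net Γ η D s' R₁ n where
  p := N.p
  good := N.good
  mem := N.mem
  out := N.out
  dense := N.dense
  sep := fun i γ hγ h1 => h.trans (N.sep i γ hγ h1)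
  thick := N.thick

theorem Net.weaken_E1 {Γ : Subgroup GLI} {η D s s' R₁ : ℝ} {n : ℕ} (N : Net Γ η D s R₁ n)
    (h : s' ≤ s) : (N.weaken h).E1 = N.E1 := rfl

theorem Net.weaken_B {Γ : Subgroup GLI} {η D s s' R₁ : ℝ} {n : ℕ} (N : Net Γ η D s R₁ n)
    (h : s' ≤ s) : (N.weaken h).B = N.B := rfl

theorem Net.E1_eq_empty {Γ : Subgroup GLI} {η D s R₁ : ℝ} {n : ℕ} (N : Net Γ η D s R₁ n)
    (h : N.good = ∅) : N.E1 = ∅ := by
  ext e; simp [Net.E1, h]

/-- A cost condition for a lattice at scale `V`. -/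
def HasNet (η D s R₁ : ℝ) (V β : ℝ) (n : ℕ) (Γ : Subgroup GLI) : Prop :=
  ∃ N : Net Γ η D s R₁ n, (N.E1.ncard : ℝ) ≤ V / 5 ∧ (N.B.ncard : ℝ) ≤ β * V

theorem card_le_of_nets {η D ρ cb Cn V β M : ℝ} (hs0 : 0 < Cn * V) (hs1 : 1 ≤ Cn * V)
    (hR : ∀ (Γ Γ' : Subgroup GLI) (F F' : Set X), Lat Γ F → Lat Γ' F' →
      ∀ (s : ℝ), 0 < s → s ≤ 1 → ∀ (n : ℕ) (N : Net Γ η D s (10 * D) n)
        (N' : Net Γ' η D s (10 * D) n), Close N N' ρ (cb * s) → Conj Γ Γ')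
    (hC : ∀ n : ℕ, (n : ℝ) ≤ Cn * V → ∀ (ι : Type) [Fintype ι] (Γ : ι → Subgroup GLI)
      (N : ∀ i, Net (Γ i) η D (1 / (Cn * V) ^ 2) (10 * D) n),
      (∀ i, Disc (Γ i)) →
      (∀ i, ((N i).E1.ncard : ℝ) ≤ V / 5) →
      (∀ i, ((N i).B.ncard : ℝ) ≤ β * V) →
      (∀ i j, i ≠ j → ¬ Close (N i) (N j) ρ (cb * (1 / (Cn * V) ^ 2))) →
      (Fintype.card ι : ℝ) ≤ M)
    (S : Finset (Subgroup GLI))
    (hS : ∀ Γ ∈ S, (∃ F, Lat Γ F) ∧ ∃ n : ℕ, (n : ℝ) ≤ Cn * V ∧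
      HasNet η D (1 / (Cn * V) ^ 2) (10 * D) V β n Γ)
    (hconj : ∀ Γ ∈ S, ∀ Γ' ∈ S, Γ ≠ Γ' → ¬ Conj Γ Γ') :
    (S.card : ℝ) ≤ (Cn * V + 1) * M := by
  classical
  set m : ℕ := ⌊Cn * V⌋₊ + 1 with hm
  let Sn : ℕ → Finset (Subgroup GLI) := fun n =>
    S.filter (fun Γ => HasNet η D (1 / (Cn * V) ^ 2) (10 * D) V β n Γ)
  have hsub : S ⊆ (Finset.range m).biUnion Sn := by
    intro Γ hΓ
    obtain ⟨-, n, hn, hN⟩ := hS Γ hΓ
    refine Finset.mem_biUnion.2 ⟨n, ?_, Finset.mem_filter.2 ⟨hΓ, hN⟩⟩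
    rw [Finset.mem_range, hm, Nat.lt_succ_iff]
    exact Nat.le_floor hn
  have hcard : ∀ n ∈ Finset.range m, ((Sn n).card : ℝ) ≤ M := by
    intro n hn
    have hn' : (n : ℝ) ≤ Cn * V := by
      rw [Finset.mem_range, hm, Nat.lt_succ_iff] at hn
      exact (Nat.le_floor_iff hs0.le).1 hn
    -- `Sn n` as an index type in `Type`
    let e : Fin (Sn n).card ≃ {x // x ∈ Sn n} := (Sn n).equivFin.symm
    have hN : ∀ i : Fin (Sn n).card,
        ∃ N : Net (e i).1 η D (1 / (Cn * V) ^ 2) (10 * D) n,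
          (N.E1.ncard : ℝ) ≤ V / 5 ∧ (N.B.ncard : ℝ) ≤ β * V := by
      intro i
      exact (Finset.mem_filter.1 (e i).2).2
    choose N hN1 hN2 using hN
    have hmem : ∀ i : Fin (Sn n).card, (e i).1 ∈ S := fun i => (Finset.mem_filter.1 (e i).2).1
    have := hC n hn' (Fin (Sn n).card) (fun i => (e i).1) N
      (fun i => by
        obtain ⟨F, hF⟩ := (hS _ (hmem i)).1
        exact hF.toDisc) hN1 hN2 ?_
    · simpa using this
    · intro i j hij hclose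
      obtain ⟨F, hF⟩ := (hS _ (hmem i)).1
      obtain ⟨F', hF'⟩ := (hS _ (hmem j)).1
      have hs : (1 : ℝ) / (Cn * V) ^ 2 ≤ 1 := by
        rw [div_le_one (by positivity)]
        nlinarith
      have hc := hR _ _ F F' hF hF' (1 / (Cn * V) ^ 2) (by positivity) hs n (N i) (N j) hclose
      refine hconj _ (hmem i) _ (hmem j) ?_ hc
      intro h
      exact hij (e.injective (Subtype.ext h))
  have h1 : (S.card : ℝ) ≤ ∑ n ∈ Finset.range m, ((Sn n).card : ℝ) := by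
    have := (Finset.card_le_card hsub).trans Finset.card_biUnion_le
    exact_mod_cast this
  have h2 : ∑ n ∈ Finset.range m, ((Sn n).card : ℝ) ≤ (m : ℝ) * M := by
    have := Finset.sum_le_card_nsmul (Finset.range m) (fun n => ((Sn n).card : ℝ)) M hcard
    simpa using this
  have hM : 0 ≤ M := by
    have := hcard 0 (by rw [Finset.mem_range, hm]; omega)
    exact le_trans (by positivity) this
  have h3 : (m : ℝ) ≤ Cn * V + 1 := by
    rw [hm]; push_cast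
    have := Nat.floor_le hs0.le
    linarith
  calc (S.card : ℝ) ≤ (m : ℝ) * M := h1.trans h2
    _ ≤ (Cn * V + 1) * M := by gcongr

end Pool.Agent.helper21.WB
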