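import Pool.Agent.helper21.WB.Asm1
import Pool.Agent.helper21.WB.Basic

/-! Assembly, part 2: Wang finiteness and the bound for thick lattices. -/

set_option autoImplicit false
open Matrix MeasureTheory

namespace Pool.Agent.helper21.WB

theorem toReal_le_of_le {F : Set X} {V : ℝ} (hV : 0 ≤ V) (h : μ F ≤ ENNReal.ofReal V) :
    (μ F).toReal ≤ V := by
  have := ENNReal.toReal_mono ENNReal.ofReal_ne_top h
  rwa [ENNReal.toReal_ofReal hV] at this

/-- Wang: finitely many lattices of bounded covolume. -/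
theorem wang_bound (V : ℝ) : ∃ M : ℝ, ∀ S : Finset (Subgroup GLI),
    (∀ Γ ∈ S, ∃ F, Lat Γ F ∧ μ F ≤ ENNReal.ofReal V) →
    (∀ Γ ∈ S, ∀ Γ' ∈ S, Γ ≠ Γ' → ¬ Conj Γ Γ') → (S.card : ℝ) ≤ M := by
  obtain ⟨η₁, hη₁, hR⟩ := conj_of_close
  obtain ⟨η₂, hη₂, hN⟩ := exists_net
  obtain ⟨K₀, K₁, hK₀, hK₁, η₃, hη₃, hC⟩ := card_nets
  set η := min η₁ (min η₂ η₃) with hη
  have hη0 : 0 < η := lt_min hη₁ (lt_min hη₂ hη₃)
  obtain ⟨D₁, hR⟩ := hR η hη0 (min_le_left _ _)
  obtain ⟨D₂, hN⟩ := hN η hη0 ((min_le_right _ _).trans (min_le_left _ _))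
  set D := max 1 (max D₁ D₂) with hD
  obtain ⟨ρ, hρ, cb, hcb, hR⟩ := hR D ((le_max_left _ _).trans (le_max_right _ _))
  obtain ⟨C, hC1, hN⟩ := hN D ((le_max_right _ _).trans (le_max_right _ _))
  obtain ⟨C', hC'1, hC⟩ := hC η hη0 ((min_le_right _ _).trans (min_le_right _ _)) D (le_max_left _ _)
    ρ cb (2 * C) hρ hcb (by linarith)
  set V' := max C' (max V 1) with hV'
  have hV'1 : 1 ≤ V' := (le_max_right _ _).trans (le_max_right _ _)
  have hVV' : V ≤ V' := (le_max_left _ _).trans (le_max_right _ _)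
  have hbase : 1 ≤ 2 * C * V' := by nlinarith
  refine ⟨(2 * C * V' + 1) * Real.exp ((1 / 5 + K₁ * Real.exp (K₀ * D) * (2 * C)) * V' * Real.log V'
    + C' * (1 + 2 * C) * V'), fun S hS hconj => ?_⟩
  refine card_le_of_nets (η := η) (D := D) (ρ := ρ) (cb := cb) (Cn := 2 * C) (V := V') (β := 2 * C)
    (by linarith) hbase hR ?_ S ?_ hconj
  · intro n hn ι _ Γ N h1 h2 h3 h4
    exact hC V' (le_max_left _ _) (2 * C) (by linarith) n hn ι Γ N h1 h2 h3 h4
  · intro Γ hΓ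
    obtain ⟨F, hF, hFV⟩ := hS Γ hΓ
    refine ⟨⟨F, hF⟩, ?_⟩
    have hv : (μ F).toReal ≤ V' := by
      refine toReal_le_of_le (by linarith) (hFV.trans (ENNReal.ofReal_le_ofReal hVV'))
    have hv0 : 0 ≤ (μ F).toReal := ENNReal.toReal_nonneg
    obtain ⟨n, N, hn, hgood, hB⟩ := hN Γ F hF
    have h1 : C * (1 + (μ F).toReal) ≤ 2 * C * V' := by nlinarith
    have h2 : (1 : ℝ) / (2 * C * V') ^ 2 ≤ 1 / (C * (1 + (μ F).toReal)) ^ 2 := by
      apply one_div_le_one_div_of_le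
      · have : 0 < C * (1 + (μ F).toReal) := by positivity
        positivity
      · have : 0 ≤ C * (1 + (μ F).toReal) := by positivity
        gcongr
    refine ⟨n, hn.trans h1, N.weaken h2, ?_, ?_⟩
    · rw [Net.weaken_E1, Net.E1_eq_empty N hgood]
      simp; linarith
    · rw [Net.weaken_B]
      exact hB.trans h1

/-- the bound for thick lattices -/
theorem thick_bound : ∃ ε R V₀ : ℝ, 0 < ε ∧ 0 < R ∧ ∀ V : ℝ, V₀ ≤ V → ∀ S : Finset (Subgroup GLI),
    (∀ Γ ∈ S, ∃ F, Lat Γ F ∧ μ F ≤ ENNReal.ofReal V ∧ μ (F ∩ thin Γ R) ≤ ENNReal.ofReal ε * μ F) →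
    (∀ Γ ∈ S, ∀ Γ' ∈ S, Γ ≠ Γ' → ¬ Conj Γ Γ') →
    (S.card : ℝ) ≤ Real.exp ((43 / 200) * V * Real.log V) := by
  obtain ⟨η₁, hη₁, hR⟩ := conj_of_close
  obtain ⟨η₂, hη₂, hN⟩ := exists_net_thick
  obtain ⟨K₀, K₁, hK₀, hK₁, η₃, hη₃, hC⟩ := card_nets
  set η := min η₁ (min η₂ η₃) with hη
  have hη0 : 0 < η := lt_min hη₁ (lt_min hη₂ hη₃)
  obtain ⟨D₁, hR⟩ := hR η hη0 (min_le_left _ _)
  obtain ⟨D₂, hN⟩ := hN η hη0 ((min_le_right _ _).trans (min_le_left _ _)) (K₀ + 1) (by linarith)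
  set D := max (max 1 (Real.log (100 * K₁))) (max D₁ D₂) with hD
  have hD1 : 1 ≤ D := (le_max_left _ _).trans (le_max_left _ _)
  have hDK : Real.log (100 * K₁) ≤ D := (le_max_right _ _).trans (le_max_left _ _)
  obtain ⟨ρ, hρ, cb, hcb, hR⟩ := hR D ((le_max_left _ _).trans (le_max_right _ _))
  obtain ⟨C, ε, R, v₀, hC1, hε, hR0, hN⟩ := hN D ((le_max_right _ _).trans (le_max_right _ _))
  obtain ⟨C', hC'1, hC⟩ := hC η hη0 ((min_le_right _ _).trans (min_le_right _ _)) D hD1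
    ρ cb (2 * C) hρ hcb (by linarith)
  obtain ⟨M₀, hM₀⟩ := wang_bound v₀
  set β := Real.exp (- (K₀ + 1) * D) with hβ
  have hβ0 : 0 < β := Real.exp_pos _
  have hβ1 : β ≤ 1 := by
    rw [hβ, Real.exp_le_one_iff]; nlinarith
  have hβK : K₁ * Real.exp (K₀ * D) * β ≤ 1 / 100 := by
    rw [hβ, mul_assoc, ← Real.exp_add]
    have e : K₀ * D + - (K₀ + 1) * D = - D := by ring
    rw [e, Real.exp_neg]
    have h1 : 100 * K₁ ≤ Real.exp D := by
      rw [← Real.exp_log (show (0:ℝ) < 100 * K₁ by positivity)]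
      exact Real.exp_le_exp.2 hDK
    rw [← div_eq_mul_inv, div_le_iff₀ (Real.exp_pos _)]
    linarith
  -- asymptotics
  have hasym : ∀ᶠ V : ℝ in Filter.atTop,
      (2 * C * V + 1) * Real.exp ((1 / 5 + 1 / 100) * V * Real.log V + C' * (1 + 1) * V) + M₀ ≤
        Real.exp ((43 / 200) * V * Real.log V) := by
    have hlog : Filter.Tendsto Real.log Filter.atTop Filter.atTop := Real.tendsto_log_atTop
    have e1 : ∀ᶠ V : ℝ in Filter.atTop, 200 * (2 * C' + 2 * C + 3) ≤ Real.log V :=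
      hlog.eventually_ge_atTop _
    filter_upwards [e1, Filter.eventually_ge_atTop (1 : ℝ), Filter.eventually_ge_atTop |M₀|]
      with V h1 h2 h3
    have hV0 : 0 < V := by linarith
    have hM : M₀ ≤ V := (le_abs_self _).trans h3
    have hexp1 : 2 * C * V + 1 + 1 ≤ Real.exp ((2 * C + 1) * V) := by
      have := Real.add_one_le_exp ((2 * C + 1) * V)
      nlinarith
    have hA : 1 ≤ Real.exp ((1 / 5 + 1 / 100) * V * Real.log V + C' * (1 + 1) * V) := by
      apply Real.one_le_exp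
      have : 0 ≤ Real.log V := by nlinarith
      positivity
    have hV1 : V ≤ Real.exp V := by linarith [Real.add_one_le_exp V]
    set A := Real.exp ((1 / 5 + 1 / 100) * V * Real.log V + C' * (1 + 1) * V) with hAdef
    have hs : (2 * C * V + 1) * A + M₀ ≤ (2 * C * V + 1 + 1) * (A * Real.exp V) := by
      have hA0 : 0 < A := Real.exp_pos _
      have h4 : (2 * C * V + 1) * A ≤ (2 * C * V + 1) * (A * Real.exp V) := by
        have : A ≤ A * Real.exp V := by
          have : 1 ≤ Real.exp V := Real.one_le_exp hV0.le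
          nlinarith
        have h5 : 0 ≤ 2 * C * V + 1 := by positivity
        exact mul_le_mul_of_nonneg_left this h5
      have h6 : M₀ ≤ A * Real.exp V := by
        calc M₀ ≤ V := hM
          _ ≤ Real.exp V := hV1
          _ ≤ A * Real.exp V := by
            have := Real.exp_pos V
            nlinarith
      nlinarith
    refine hs.trans ?_
    calc (2 * C * V + 1 + 1) * (A * Real.exp V)
        ≤ Real.exp ((2 * C + 1) * V) * (A * Real.exp V) := by gcongr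
      _ = Real.exp ((2 * C + 1) * V + (((1 / 5 + 1 / 100) * V * Real.log V + C' * (1 + 1) * V) + V)) := by
          rw [hAdef, ← Real.exp_add, ← Real.exp_add]
      _ ≤ Real.exp ((43 / 200) * V * Real.log V) := by
          apply Real.exp_le_exp.2
          nlinarith
  obtain ⟨V₁, hV₁⟩ := Filter.eventually_atTop.1 hasym
  refine ⟨ε, R, max V₁ (max C' 1), hε, hR0, fun V hV S hS hconj => ?_⟩
  have hVV₁ : V₁ ≤ V := (le_max_left _ _).trans hV
  have hVC' : C' ≤ V := ((le_max_left _ _).trans (le_max_right _ _)).trans hV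
  have hV1 : 1 ≤ V := ((le_max_right _ _).trans (le_max_right _ _)).trans hV
  refine le_trans ?_ (hV₁ V hVV₁)
  classical
  -- split `S`
  set S₁ := S.filter (fun Γ => ∃ F, Lat Γ F ∧ μ F ≤ ENNReal.ofReal V ∧
    μ (F ∩ thin Γ R) ≤ ENNReal.ofReal ε * μ F ∧ v₀ ≤ (μ F).toReal) with hS₁
  set S₂ := S.filter (fun Γ => ¬ ∃ F, Lat Γ F ∧ μ F ≤ ENNReal.ofReal V ∧
    μ (F ∩ thin Γ R) ≤ ENNReal.ofReal ε * μ F ∧ v₀ ≤ (μ F).toReal) with hS₂
  have hcard : S.card = S₁.card + S₂.card := by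
    rw [hS₁, hS₂]; exact (Finset.card_filter_add_card_filter_not _).symm
  have hbase : 1 ≤ 2 * C * V := by nlinarith
  have hb1 : (S₁.card : ℝ) ≤ (2 * C * V + 1) *
      Real.exp ((1 / 5 + 1 / 100) * V * Real.log V + C' * (1 + 1) * V) := by
    refine card_le_of_nets (η := η) (D := D) (ρ := ρ) (cb := cb) (Cn := 2 * C) (V := V) (β := β)
      (by linarith) hbase hR ?_ S₁ ?_ ?_
    · intro n hn ι _ Γ N h1 h2 h3 h4
      refine (hC V hVC' β hβ0.le n hn ι Γ N h1 h2 h3 h4).trans ?_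
      apply Real.exp_le_exp.2
      have hlogV : 0 ≤ Real.log V := Real.log_nonneg hV1
      have e1 : (1 / 5 + K₁ * Real.exp (K₀ * D) * β) * V * Real.log V ≤
          (1 / 5 + 1 / 100) * V * Real.log V := by
        gcongr
      have e2 : C' * (1 + β) * V ≤ C' * (1 + 1) * V := by gcongr
      linarith
    · intro Γ hΓ
      obtain ⟨hΓS, F, hF, hFV, hthin, hv₀⟩ := Finset.mem_filter.1 hΓ
      refine ⟨⟨F, hF⟩, ?_⟩
      have hv : (μ F).toReal ≤ V := toReal_le_of_le (by linarith) hFV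
      have hv0 : 0 ≤ (μ F).toReal := ENNReal.toReal_nonneg
      obtain ⟨n, N, hn, hE, hB⟩ := hN Γ F hF hv₀ hthin
      have h1 : C * (1 + (μ F).toReal) ≤ 2 * C * V := by nlinarith
      have h2 : (1 : ℝ) / (2 * C * V) ^ 2 ≤ 1 / (C * (1 + (μ F).toReal)) ^ 2 := by
        apply one_div_le_one_div_of_le
        · have : 0 < C * (1 + (μ F).toReal) := by positivity
          positivity
        · have : 0 ≤ C * (1 + (μ F).toReal) := by positivity
          gcongr
      refine ⟨n, hn.trans h1, N.weaken h2, ?_, ?_⟩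
      · rw [Net.weaken_E1]
        exact hE.trans (by linarith)
      · rw [Net.weaken_B]
        exact hB.trans (by rw [hβ]; gcongr)
    · intro Γ hΓ Γ' hΓ' hne
      exact hconj Γ (Finset.mem_filter.1 hΓ).1 Γ' (Finset.mem_filter.1 hΓ').1 hne
  have hb2 : (S₂.card : ℝ) ≤ M₀ := by
    refine hM₀ S₂ ?_ ?_
    · intro Γ hΓ
      obtain ⟨hΓS, hno⟩ := Finset.mem_filter.1 hΓ
      obtain ⟨F, hF, hFV, hthin⟩ := hS Γ hΓS
      refine ⟨F, hF, ?_⟩
      by_contra hlt
      apply hno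
      refine ⟨F, hF, hFV, hthin, ?_⟩
      by_contra h
      apply hlt
      rw [not_le] at h
      calc μ F = ENNReal.ofReal (μ F).toReal := (ENNReal.ofReal_toReal hF.fin.ne).symm
        _ ≤ ENNReal.ofReal v₀ := ENNReal.ofReal_le_ofReal h.le
    · intro Γ hΓ Γ' hΓ' hne
      exact hconj Γ (Finset.mem_filter.1 hΓ).1 Γ' (Finset.mem_filter.1 hΓ').1 hne
  rw [hcard]; push_cast; linarith

end Pool.Agent.helper21.WB
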