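import Pool.Agent.helper21.WB.Defs2
import Pool.Agent.helper42.WB.B4a

/-! Volume of balls around an arbitrary centre (B4b + B1b + B4a). -/

set_option autoImplicit false
open Matrix MeasureTheory

namespace Pool.Agent.helper21.WB

theorem μ_hball (x : X) (r : ℝ) : μ {y | hd x y ≤ r} = ENNReal.ofReal (vb r) :=
  B4b.μ_hball_of exists_bst (fun _ hg => measurePreserving_act hg) x r

end Pool.Agent.helper21.WB
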