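/-
Copyright: helper21. MP_7b8095_gt (Weinberger's question on generic hyperbolic orbifolds), real hyperbolic
space of dimension four.

Conventions.  `I = Fin 4 ⊕ Unit`, `J = diag(1,1,1,1,-1)`, `bl v w = v^T J w`, hyperbolic four space is
parametrised by `y : X = Fin 4 → ℝ` through `lift y = (y, sqrt (1+|y|^2))`, matrices act by `act`,
`μ` is the invariant measure, `ch x y = - bl (lift x) (lift y) = cosh (distance)`, `hd` is the distance.
-/
import Mathlib

set_option autoImplicit false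
open Matrix MeasureTheory

namespace Pool.Agent.helper21.WB

/-- the index type of the frozen statement for `d = 4` -/
abbrev I : Type := Fin 4 ⊕ Unit

/-- the time index -/
abbrev o : I := Sum.inr ()

abbrev Mat : Type := Matrix I I ℝ

abbrev GLI : Type := Matrix.GeneralLinearGroup I ℝ

/-- points of hyperbolic space, in hyperboloid coordinates -/
abbrev X : Type := Fin 4 → ℝ

/-- the Lorentz form -/
noncomputable def J : Mat := Matrix.fromBlocks 1 0 0 (-1)

/-- `v^T J w` -/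
noncomputable def bl (v w : I → ℝ) : ℝ := v ⬝ᵥ (J *ᵥ w)

/-- the point of the hyperboloid with spatial coordinates `y` -/
noncomputable def lift (y : X) : I → ℝ := Sum.elim y (fun _ => Real.sqrt (1 + ∑ i, y i ^ 2))

/-- the action of (time oriented Lorentz) matrices -/
noncomputable def act (γ : GLI) (y : X) : X := fun i => (γ.val *ᵥ lift y) (Sum.inl i)

/-- the invariant measure -/
noncomputable def μ : Measure X :=
  (volume : Measure X).withDensity (fun y => ENNReal.ofReal (1 / Real.sqrt (1 + ∑ i, y i ^ 2)))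

/-- membership in `O^+(4,1)` -/
def InG (γ : GLI) : Prop := (γ.val)ᵀ * J * γ.val = J ∧ 0 < γ.val (Sum.inr ()) (Sum.inr ())

/-- `cosh` of the hyperbolic distance of two points -/
noncomputable def ch (x y : X) : ℝ := - bl (lift x) (lift y)

/-- hyperbolic distance -/
noncomputable def hd (x y : X) : ℝ := Real.arcosh (ch x y)

/-- `cosh` of the distance of the base points `g·0`, `h·0` of two frames -/
noncomputable def gch (g h : GLI) : ℝ := (g⁻¹ * h).val o o

/-- distance of the base points `g·0`, `h·0` of two frames -/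
noncomputable def gd (g h : GLI) : ℝ := Real.arcosh (gch g h)

/-- Frobenius norm -/
noncomputable def fn (A : Mat) : ℝ := Real.sqrt (∑ i, ∑ j, A i j ^ 2)

/-- the positive definite form at `y` (equal to the identity at `y = 0`) -/
noncomputable def Pf (y : X) : Mat := J + 2 • (J * Matrix.vecMulVec (lift y) (lift y) * J)

/-- its inverse -/
noncomputable def Qf (y : X) : Mat := J + 2 • Matrix.vecMulVec (lift y) (lift y)

/-- Frobenius norm of `A` in an orthonormal frame at `y`; `nrm (act g 0) A = fn (g⁻¹ A g)` -/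
noncomputable def nrm (y : X) (A : Mat) : ℝ := Real.sqrt (Matrix.trace (Qf y * Aᵀ * Pf y * A))

/-- the antisymmetric part (an element of the Lie algebra) -/
noncomputable def Yg (γ : GLI) : Mat := (1 / 2 : ℝ) • (γ.val - (γ⁻¹ : GLI).val)

/-- how far `γ` is from `1`, seen from `y` -/
noncomputable def sm (y : X) (γ : GLI) : ℝ := nrm y (γ.val - 1)

/-- `γ` is unipotent (for elements of `O^+(4,1)`) -/
def Unip (γ : GLI) : Prop := (γ.val - 1) ^ 3 = 0

/-- `F` is a fundamental domain for `Γ`, exactly as in the frozen statement -/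
def IsFD (Γ : Subgroup GLI) (F : Set X) : Prop :=
  MeasurableSet F ∧ ∀ᵐ y ∂μ, ∃! z, z ∈ F ∧ ∃ γ ∈ Γ, act γ y = z

/-- `Γ` is a discrete subgroup of `O^+(4,1)` -/
structure Disc (Γ : Subgroup GLI) : Prop where
  inG : ∀ γ ∈ Γ, InG γ
  disc : DiscreteTopology Γ

/-- `Γ` is a lattice in `O^+(4,1)` and `F` is a fundamental domain of finite measure -/
structure Lat (Γ : Subgroup GLI) (F : Set X) : Prop extends Disc Γ where
  fd : IsFD Γ F
  fin : μ F < ⊤

/-- conjugacy in `O^+(4,1)` -/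
def Conj (Γ Γ' : Subgroup GLI) : Prop := ∃ g : GLI, InG g ∧ ∀ h, h ∈ Γ' ↔ g⁻¹ * h * g ∈ Γ

/-- the `R`-thin part (in the normalisation `cosh d ≤ 1 + R` of the frozen statement) -/
def thin (Γ : Subgroup GLI) (R : ℝ) : Set X :=
  {y | ∃ γ ∈ Γ, γ ≠ 1 ∧ ch y (act γ y) ≤ 1 + R}

/-- the deep part of full rank cusps -/
def Deep (Γ : Subgroup GLI) (η : ℝ) : Set X :=
  {y | ∃ γ : Fin 3 → GLI, (∀ i, γ i ∈ Γ ∧ sm y (γ i) < η) ∧ LinearIndependent ℝ (fun i => Yg (γ i))}

/-- A finite family of marked points (frames) for `Γ`.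
`η`: parameter of the removed horoballs, `D`: scale, `s`: separation, `R₁`: thickness at good points. -/
structure Net (Γ : Subgroup GLI) (η D s R₁ : ℝ) (n : ℕ) where
  p : Fin n → GLI
  good : Finset (Fin n)
  mem : ∀ i, InG (p i)
  out : ∀ i, act (p i) 0 ∉ Deep Γ η
  dense : ∀ x, x ∉ Deep Γ η → ∃ i, ∃ γ ∈ Γ, hd x (act (γ * p i) 0) ≤ D / 16
  sep : ∀ i, ∀ γ ∈ Γ, γ ≠ 1 → s ≤ sm (act (p i) 0) γ
  thick : ∀ i ∈ good, ∀ γ ∈ Γ, γ ≠ 1 → R₁ < gd (p i) (γ * p i)

/-- Edges between good points which have no substitute (relative neighbourhood graph, `δ₀ = 1/20`). -/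
def Net.E1 {Γ : Subgroup GLI} {η D s R₁ : ℝ} {n : ℕ} (N : Net Γ η D s R₁ n) :
    Set (Fin n × Fin n × GLI) :=
  {e | e.1 ∈ N.good ∧ e.2.1 ∈ N.good ∧ e.1 < e.2.1 ∧ e.2.2 ∈ Γ ∧
    gd (N.p e.1) (e.2.2 * N.p e.2.1) ≤ D ∧
    ¬ ∃ k, ∃ δ ∈ Γ, gd (N.p e.1) (δ * N.p k) ≤ gd (N.p e.1) (e.2.2 * N.p e.2.1) - 1 / 20 ∧
      gd (δ * N.p k) (e.2.2 * N.p e.2.1) ≤ gd (N.p e.1) (e.2.2 * N.p e.2.1) - 1 / 20}

/-- Pairs of orbits at distance at most `D` one of which is bad. -/
def Net.B {Γ : Subgroup GLI} {η D s R₁ : ℝ} {n : ℕ} (N : Net Γ η D s R₁ n) :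
    Set (Fin n × Fin n) :=
  {e | (e.1 ∉ N.good ∨ e.2 ∉ N.good) ∧ ∃ γ ∈ Γ, gd (N.p e.1) (γ * N.p e.2) ≤ D}

/-- Every relative position `p_i⁻¹ γ p_j` of `N` of size at most `D` occurs in `N'`, up to `ρ` between
good points, up to `ρb` if one of the points is bad. -/
def CloseTo {Γ Γ' : Subgroup GLI} {η D s R₁ : ℝ} {n : ℕ}
    (N : Net Γ η D s R₁ n) (N' : Net Γ' η D s R₁ n) (ρ ρb : ℝ) : Prop :=
  N.good = N'.good ∧ ∀ i j, ∀ γ ∈ Γ, gd (N.p i) (γ * N.p j) ≤ D → ∃ γ' ∈ Γ',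
    fn (((N.p i)⁻¹ * γ * N.p j).val - ((N'.p i)⁻¹ * γ' * N'.p j).val) ≤ ρb ∨
    (i ∈ N.good ∧ j ∈ N.good ∧
      fn (((N.p i)⁻¹ * γ * N.p j).val - ((N'.p i)⁻¹ * γ' * N'.p j).val) ≤ ρ)

def Close {Γ Γ' : Subgroup GLI} {η D s R₁ : ℝ} {n : ℕ}
    (N : Net Γ η D s R₁ n) (N' : Net Γ' η D s R₁ n) (ρ ρb : ℝ) : Prop :=
  CloseTo N N' ρ ρb ∧ CloseTo N' N ρ ρb

end Pool.Agent.helper21.WB
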