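import Pool.Agent.helper21.WB.Basic
import Pool.Agent.helper2.WB.B4b
import Pool.Agent.helper40.WB.SinfDef
import Pool.Agent.helper26.WB.B1b

/-! Definitions used by the parts Z, H, R.  (`vb` and the instance `SFinite μ` are in
`Pool.Agent.helper2.WB.B4b`, `sinf` is in `Pool.Agent.helper40.WB.SinfDef`.) -/

set_option autoImplicit false
open Matrix MeasureTheory

namespace Pool.Agent.helper21.WB

/-- the boost moving `0` to `y` -/
noncomputable def bst (y : X) : GLI := (exists_bst y).choose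
theorem bst_inG (y : X) : InG (bst y) := (exists_bst y).choose_spec.1
theorem act_bst (y : X) : act (bst y) 0 = y := (exists_bst y).choose_spec.2

/-- the Lie algebra `so(4,1)` -/
def IsSo (A : Mat) : Prop := Aᵀ * J + J * A = 0

/-- `wedge ξ w v = ⟨ξ,v⟩ w - ⟨w,v⟩ ξ` -/
noncomputable def wedge (ξ w : I → ℝ) : Mat :=
  Matrix.vecMulVec w (J *ᵥ ξ) - Matrix.vecMulVec ξ (J *ᵥ w)

/-- null and future directed -/
def NullF (ξ : I → ℝ) : Prop := bl ξ ξ = 0 ∧ 0 < ξ o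

/-- height function of the horoball of `ξ`: the horoball is `{y | hb ξ y < 1}` -/
noncomputable def hb (ξ : I → ℝ) (y : X) : ℝ := - bl ξ (lift y)

/-- A locally finite family of disjoint open horoballs `{y | hb ξ y < 1}`. -/
structure Horo (Ξ : Set (I → ℝ)) : Prop where
  null : ∀ ξ ∈ Ξ, NullF ξ
  disj : ∀ ξ ∈ Ξ, ∀ ξ' ∈ Ξ, ∀ y, hb ξ y ≤ 1 → hb ξ' y ≤ 1 → ξ = ξ'
  locfin : ∀ y r, {ξ | ξ ∈ Ξ ∧ ∃ z, hd y z ≤ r ∧ hb ξ z ≤ 1}.Finite

/-- the complement of the horoballs -/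
def Out (Ξ : Set (I → ℝ)) : Set X := {y | ∀ ξ ∈ Ξ, 1 ≤ hb ξ y}

/-- An isomorphism matching all relative positions of size at most `D/2` up to `ρ`. -/
def CloseIso {Γ Γ' : Subgroup GLI} {η D s R₁ : ℝ} {n : ℕ} (N : Net Γ η D s R₁ n)
    (N' : Net Γ' η D s R₁ n) (φ : Γ ≃* Γ') (ρ : ℝ) : Prop :=
  (∀ i j, ∀ γ : Γ, gd (N.p i) (γ.1 * N.p j) ≤ D / 2 →
    fn (((N.p i)⁻¹ * γ.1 * N.p j).val - ((N'.p i)⁻¹ * (φ γ).1 * N'.p j).val) ≤ ρ) ∧
  (∀ i j, ∀ γ' : Γ', gd (N'.p i) (γ'.1 * N'.p j) ≤ D / 2 →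
    fn (((N'.p i)⁻¹ * γ'.1 * N'.p j).val - ((N.p i)⁻¹ * (φ.symm γ').1 * N.p j).val) ≤ ρ)

end Pool.Agent.helper21.WB
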