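import Pool.Agent.helper21.WB.LibB
import Pool.Agent.helper80.WB.H2

/-! Elementary facts about horoball height functions. -/

set_option autoImplicit false
open Matrix MeasureTheory

namespace Pool.Agent.helper21.WB

theorem hb_pos {ξ : I → ℝ} (h : NullF ξ) (y : X) : 0 < hb ξ y := H2.hbpos h y

theorem hb_act {ξ : I → ℝ} {g : GLI} (hg : InG g) (y : X) : hb (g.val *ᵥ ξ) (act g y) = hb ξ y := by
  unfold hb
  rw [lift_act hg, bl_mulVec hg.1]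

theorem nullF_mulVec {ξ : I → ℝ} (h : NullF ξ) {g : GLI} (hg : InG g) : NullF (g.val *ᵥ ξ) := by
  refine ⟨by rw [bl_mulVec hg.1]; exact h.1, ?_⟩
  have h1 := bl_neg (v := lift (act g⁻¹ 0)) (w := ξ) (by rw [bl_lift]; norm_num)
    (by linarith [lift_o_pos (act g⁻¹ 0)]) (by rw [h.1]) h.2
  have h2 : bl (lift 0) (g.val *ᵥ ξ) = bl (lift (act g⁻¹ 0)) ξ := by
    rw [← bl_mulVec hg.1 (lift (act g⁻¹ 0)) ξ, ← lift_act hg, act_act_inv hg]
  have h3 : bl (lift 0) (g.val *ᵥ ξ) = - (g.val *ᵥ ξ) o := by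
    rw [bl_apply]
    simp [lift_zero, o]
  rw [← h2, h3] at h1
  linarith

theorem hb_lip_zero {ξ : I → ℝ} (h : NullF ξ) (y : X) : hb ξ y ≤ Real.exp (hd 0 y) * hb ξ 0 := by
  have h0 : hb ξ 0 = ξ o := by
    unfold hb; rw [bl_apply]; simp [lift_zero, o]
  rw [h0]
  have hξ := h.1
  rw [bl_apply] at hξ
  have e1 : Real.exp (hd 0 y) = Real.cosh (hd 0 y) + Real.sinh (hd 0 y) := (Real.cosh_add_sinh _).symm
  have e2 : Real.cosh (hd 0 y) = lift y o := by rw [cosh_hd, ch_zero]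
  have e3 : Real.sinh (hd 0 y) ^ 2 = ∑ i, y i ^ 2 := by
    rw [Real.sinh_sq, e2, lift_o_sq]; ring
  have hs : 0 ≤ Real.sinh (hd 0 y) := Real.sinh_nonneg_iff.2 (hd_nonneg 0 y)
  unfold hb
  rw [bl_apply, e1, e2]
  have hcs := cs_spatial (fun i => ξ (Sum.inl i)) y
  have hsum : ∑ i : Fin 4, ξ (Sum.inl i) ^ 2 = ξ o ^ 2 := by
    have : ∑ i : Fin 4, ξ (Sum.inl i) ^ 2 = ∑ i : Fin 4, ξ (Sum.inl i) * ξ (Sum.inl i) :=
      Finset.sum_congr rfl fun i _ => by ring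
    rw [this]; linarith
  rw [hsum, ← e3, ← mul_pow] at hcs
  have h4 : |∑ i : Fin 4, ξ (Sum.inl i) * y i| ≤ ξ o * Real.sinh (hd 0 y) :=
    abs_le_of_sq_le_sq hcs (mul_nonneg h.2.le hs)
  have h5 := (abs_le.1 h4).1
  simp only [lift_inl]
  nlinarith

theorem hb_lip {ξ : I → ℝ} (h : NullF ξ) (x y : X) : hb ξ y ≤ Real.exp (hd x y) * hb ξ x := by
  have hg := (bst_inG x).inv
  have e1 : hb ((bst x)⁻¹.val *ᵥ ξ) (act (bst x)⁻¹ y) = hb ξ y := hb_act hg y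
  have e2 : hb ((bst x)⁻¹.val *ᵥ ξ) (act (bst x)⁻¹ x) = hb ξ x := hb_act hg x
  have e3 : act (bst x)⁻¹ x = 0 := by
    have := act_inv_act (bst_inG x) (0 : X)
    rwa [act_bst] at this
  have e4 : hd 0 (act (bst x)⁻¹ y) = hd x y := by
    rw [← e3, hd_act hg]
  rw [e3] at e2
  rw [← e1, ← e2, ← e4]
  exact hb_lip_zero (nullF_mulVec h hg) _

end Pool.Agent.helper21.WB
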