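import Pool.Agent.helper21.WB.Defs2
import Pool.Agent.helper21.WB.B4
import Pool.Agent.helper19.WB.B1a
import Pool.Agent.helper19.WB.B3a
import Pool.Agent.helper19.WB.B5a
import Pool.Agent.helper26.WB.B1b
import Pool.Agent.helper26.WB.B3b
import Pool.Agent.helper42.WB.B4a
import Pool.Agent.helper2.WB.B4b

/-! Umbrella: landed modules of part B (without B5b). -/
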