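import Pool.Agent.helper46.WB.H1
import Pool.Agent.helper74.WB.CloseIsoBase
import Pool.Agent.helper7.WB.R2
import Pool.Agent.helper26.WB.Z6
import Pool.Agent.helper69.WB.Z1
import Pool.Agent.helper46.WB.Z2
import Pool.Agent.helper47.WB.CE
import Pool.Agent.helper42.WB.LA

/-! Small words, counting of nets, close isomorphism, near isometry, all unconditional. -/

set_option autoImplicit false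
open Matrix MeasureTheory

namespace Pool.Agent.helper21.WB.Fin

theorem small_words : ∃ η₁ : ℝ, 0 < η₁ ∧ ∀ η : ℝ, 0 < η → η ≤ η₁ → ∃ η₀ C : ℝ, 0 < η₀ ∧ 0 < C ∧
    ∀ (Γ : Subgroup GLI), Disc Γ → ∀ (y : X) (s : ℝ), 0 < s → s ≤ 1 → (∀ γ ∈ Γ, γ ≠ 1 → s ≤ sm y γ) →
    ∃ a : Fin 3 → GLI, (∀ i, a i ∈ Γ ∧ sm y (a i) ≤ η) ∧
      ∀ γ ∈ Γ, sm y γ ≤ η₀ → ∃ l : List (Fin 3 × Bool), (l.length : ℝ) ≤ C / s ^ 3 ∧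
        (l.map (fun e => if e.2 then a e.1 else (a e.1)⁻¹)).prod = γ ∧
        ∀ l', l' <+: l → sm y (l'.map (fun e => if e.2 then a e.1 else (a e.1)⁻¹)).prod ≤ η :=
  Z6.small_words_of zassenhaus (fun _ hA hc hli => abelian_three hA hc hli)

/-- [C] Counting nets up to closeness. -/
theorem card_nets : ∃ K₀ K₁ : ℝ, 0 < K₀ ∧ 0 < K₁ ∧ ∃ η₀ : ℝ, 0 < η₀ ∧ ∀ η : ℝ, 0 < η → η ≤ η₀ →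
    ∀ D : ℝ, 1 ≤ D → ∀ ρ cb Cn : ℝ, 0 < ρ → 0 < cb → 1 ≤ Cn → ∃ C : ℝ, 1 ≤ C ∧
    ∀ V : ℝ, C ≤ V → ∀ β : ℝ, 0 ≤ β → ∀ n : ℕ, (n : ℝ) ≤ Cn * V →
    ∀ (ι : Type) [Fintype ι] (Γ : ι → Subgroup GLI) (N : ∀ i, Net (Γ i) η D (1 / (Cn * V) ^ 2) (10 * D) n),
      (∀ i, Disc (Γ i)) →
      (∀ i, ((N i).E1.ncard : ℝ) ≤ V / 5) →
      (∀ i, ((N i).B.ncard : ℝ) ≤ β * V) →
      (∀ i j, i ≠ j → ¬ Close (N i) (N j) ρ (cb * (1 / (Cn * V) ^ 2))) →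
      (Fintype.card ι : ℝ) ≤
        Real.exp ((1 / 5 + K₁ * Real.exp (K₀ * D) * β) * V * Real.log V + C * (1 + β) * V) :=
  card_nets_of small_words

/-- [R1] -/
theorem close_iso : ∃ η₀ : ℝ, 0 < η₀ ∧ ∀ η : ℝ, 0 < η → η ≤ η₀ → ∃ D₀ : ℝ, ∀ D : ℝ, D₀ ≤ D →
    ∃ ρ₀ : ℝ, 0 < ρ₀ ∧ ∀ ρ : ℝ, 0 < ρ → ρ ≤ ρ₀ → ∃ cb : ℝ, 0 < cb ∧
    ∀ (Γ Γ' : Subgroup GLI), Disc Γ → Disc Γ' → ∀ (s : ℝ), 0 < s → s ≤ 1 → ∀ (n : ℕ)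
      (N : Net Γ η D s (10 * D) n) (N' : Net Γ' η D s (10 * D) n), Close N N' ρ (cb * s) →
      ∃ (φ : Γ ≃* Γ') (N'' : Net Γ' η D s (10 * D) n), CloseIso N N'' φ ρ := by
  refine R1.close_iso_of ?_
  obtain ⟨η₀, h0, H⟩ := exists_horo
  refine ⟨η₀, h0, fun η h1 h2 Γ hΓ => ?_⟩
  obtain ⟨Ξ, ha, hb, hc, -⟩ := H η h1 h2 Γ hΓ
  exact ⟨Ξ, ha, hb, hc⟩

/-- [R2] -/
theorem near_isometry : ∃ η₀ : ℝ, 0 < η₀ ∧ ∀ η : ℝ, 0 < η → η ≤ η₀ → ∃ a : ℝ, 0 < a ∧ ∃ D₀ : ℝ,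
    ∀ D : ℝ, D₀ ≤ D → ∀ D₂ : ℝ, ∃ ρ₁ : ℝ, 0 < ρ₁ ∧
    ∀ (Γ Γ' : Subgroup GLI), Disc Γ → Disc Γ' → ∀ (s : ℝ), 0 < s → ∀ (n : ℕ)
      (N : Net Γ η D s (10 * D) n) (N' : Net Γ' η D s (10 * D) n) (φ : Γ ≃* Γ'),
      CloseIso N N' φ ρ₁ → ∃ F F' : X → X,
        (∀ x y, hd x y ≤ D₂ → |hd (F x) (F y) - hd x y| ≤ a) ∧
        (∀ x y, hd x y ≤ D₂ → |hd (F' x) (F' y) - hd x y| ≤ a) ∧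
        (∀ (γ : Γ) x, hd (F (act γ.1 x)) (act (φ γ).1 (F x)) ≤ a) ∧
        (∀ x, hd (F' (F x)) x ≤ a) ∧ (∀ x, hd (F (F' x)) x ≤ a) :=
  Pool.Agent.helper7.WB.near_isometry_of exists_horo

/-- [L] -/
theorem many_lattices : ∃ V₀ : ℝ, ∀ V : ℝ, V₀ ≤ V → ∃ S : Finset (Subgroup GLI),
    (∀ Γ ∈ S, ∃ F, Lat Γ F ∧ μ F ≤ ENNReal.ofReal V) ∧
    (∀ Γ ∈ S, ∀ Γ' ∈ S, Γ ≠ Γ' → ¬ Conj Γ Γ') ∧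
    Real.exp ((11 / 50) * V * Real.log V) ≤ (S.card : ℝ) :=
  _root_.Pool.Agent.helper21.WB.many_lattices

end Pool.Agent.helper21.WB.Fin
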