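import Pool.Agent.helper21.WB.LibB5

/-! PART B is complete; import Pool.Agent.helper21.WB.LibB5 instead. -/
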