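import Pool.Agent.helper21.WB.LibB
import Pool.Agent.helper19.WB.B5b

/-! Umbrella: all modules of part B, fundamental domains included. -/
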