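import Pool.Agent.helper21.WB.LibB5
import Pool.Agent.H48.WB.Z0
import Pool.Agent.H48.WB.Z3
import Pool.Agent.helper69.WB.Z1
import Pool.Agent.helper46.WB.Z2
import Pool.Agent.helper19.WB.Z5

/-! Umbrella: landed modules of parts B and Z (Z4 and Z6 separately). -/
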