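import Pool.Agent.helper21.WB.Fin1
import Pool.Agent.helper31.WB.N7c
import Pool.Agent.helper21.WT.MH

/-! Top level statements: rigidity of close nets (R1, R2, M), existence of economic nets (N), counting
of nets (C).  The statement `many_lattices` (L) is in `Pool.Agent.helper42.WB.LA`. -/

set_option autoImplicit false
open Matrix MeasureTheory

namespace Pool.Agent.helper21.WB

theorem conj_of_iso {Γ Γ' : Subgroup GLI} (φ : Γ ≃* Γ') (g : GLI) (hg : InG g)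
    (h : ∀ γ : Γ, (φ γ).1 = g * γ.1 * g⁻¹) : Conj Γ Γ' := by
  refine ⟨g, hg, fun x => ⟨fun hx => ?_, fun hx => ?_⟩⟩
  · obtain ⟨γ, hγ⟩ := φ.surjective ⟨x, hx⟩
    have h1 := h γ
    rw [hγ] at h1
    have : g⁻¹ * x * g = γ.1 := by rw [show x = g * γ.1 * g⁻¹ from h1]; group
    rw [this]; exact γ.2
  · have h1 := h ⟨_, hx⟩
    have : (φ ⟨_, hx⟩).1 = x := by rw [h1]; group
    rw [← this]; exact (φ ⟨_, hx⟩).2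

/-- [M] Mostow rigidity in coarse form. -/
theorem mostow : ∀ a : ℝ, ∃ D₂ : ℝ, ∀ (Γ Γ' : Subgroup GLI) (F₀ : Set X), Lat Γ F₀ → Disc Γ' →
    ∀ (φ : Γ ≃* Γ') (F F' : X → X),
      (∀ x y, hd x y ≤ D₂ → |hd (F x) (F y) - hd x y| ≤ a) →
      (∀ x y, hd x y ≤ D₂ → |hd (F' x) (F' y) - hd x y| ≤ a) →
      (∀ (γ : Γ) x, hd (F (act γ.1 x)) (act (φ γ).1 (F x)) ≤ a) →
      (∀ x, hd (F' (F x)) x ≤ a) → (∀ x, hd (F (F' x)) x ≤ a) →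
      ∃ g : GLI, InG g ∧ ∀ γ : Γ, (φ γ).1 = g * γ.1 * g⁻¹ :=
  Pool.Agent.helper88.WB.mostow'

/-- [R] Rigidity: close nets have conjugate groups. -/
theorem conj_of_close : ∃ η₀ : ℝ, 0 < η₀ ∧ ∀ η : ℝ, 0 < η → η ≤ η₀ → ∃ D₀ : ℝ, ∀ D : ℝ, D₀ ≤ D →
    ∃ ρ : ℝ, 0 < ρ ∧ ∃ cb : ℝ, 0 < cb ∧
    ∀ (Γ Γ' : Subgroup GLI) (F F' : Set X), Lat Γ F → Lat Γ' F' →
    ∀ (s : ℝ), 0 < s → s ≤ 1 → ∀ (n : ℕ) (N : Net Γ η D s (10 * D) n) (N' : Net Γ' η D s (10 * D) n),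
      Close N N' ρ (cb * s) → Conj Γ Γ' := by
  obtain ⟨η₁, hη₁, h1⟩ := Fin.close_iso
  obtain ⟨η₂, hη₂, h2⟩ := Fin.near_isometry
  refine ⟨min η₁ η₂, lt_min hη₁ hη₂, fun η hη hle => ?_⟩
  obtain ⟨D₁, h1⟩ := h1 η hη (hle.trans (min_le_left _ _))
  obtain ⟨a, ha, D₀, h2⟩ := h2 η hη (hle.trans (min_le_right _ _))
  obtain ⟨D₂, h3⟩ := mostow a
  refine ⟨max D₁ D₀, fun D hD => ?_⟩
  obtain ⟨ρ₀, hρ₀, h1⟩ := h1 D ((le_max_left _ _).trans hD)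
  obtain ⟨ρ₁, hρ₁, h2⟩ := h2 D ((le_max_right _ _).trans hD) D₂
  obtain ⟨cb, hcb, h1⟩ := h1 (min ρ₀ ρ₁) (lt_min hρ₀ hρ₁) (min_le_left _ _)
  refine ⟨min ρ₀ ρ₁, lt_min hρ₀ hρ₁, cb, hcb, ?_⟩
  intro Γ Γ' F F' hL hL' s hs hs1 n N N' hclose
  obtain ⟨φ, N'', hφ⟩ := h1 Γ Γ' hL.toDisc hL'.toDisc s hs hs1 n N N' hclose
  have hφ' : CloseIso N N'' φ ρ₁ :=
    ⟨fun i j γ hγ => (hφ.1 i j γ hγ).trans (min_le_right _ _),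
      fun i j γ hγ => (hφ.2 i j γ hγ).trans (min_le_right _ _)⟩
  obtain ⟨G1, G2, hG1, hG2, hG3, hG4, hG5⟩ := h2 Γ Γ' hL.toDisc hL'.toDisc s hs n N N'' φ hφ'
  obtain ⟨g, hg, h⟩ := h3 Γ Γ' F hL hL'.toDisc φ G1 G2 hG1 hG2 hG3 hG4 hG5
  exact conj_of_iso φ g hg h

/-- [N1] Every lattice has an economic net all of whose points are bad. -/
theorem exists_net : ∃ η₀ : ℝ, 0 < η₀ ∧ ∀ η : ℝ, 0 < η → η ≤ η₀ → ∃ D₀ : ℝ, ∀ D : ℝ, D₀ ≤ D →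
    ∃ C : ℝ, 1 ≤ C ∧ ∀ (Γ : Subgroup GLI) (F : Set X), Lat Γ F →
    ∃ (n : ℕ) (N : Net Γ η D (1 / (C * (1 + (μ F).toReal)) ^ 2) (10 * D) n),
      (n : ℝ) ≤ C * (1 + (μ F).toReal) ∧ N.good = ∅ ∧
      (N.B.ncard : ℝ) ≤ C * (1 + (μ F).toReal) :=
  exists_net_of exists_Z separation

/-- [N2] Thick lattices have very economic nets. -/
theorem exists_net_thick : ∃ η₀ : ℝ, 0 < η₀ ∧ ∀ η : ℝ, 0 < η → η ≤ η₀ → ∀ K : ℝ, 0 < K →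
    ∃ D₀ : ℝ, ∀ D : ℝ, D₀ ≤ D →
    ∃ C ε R v₀ : ℝ, 1 ≤ C ∧ 0 < ε ∧ 0 < R ∧ ∀ (Γ : Subgroup GLI) (F : Set X), Lat Γ F →
      v₀ ≤ (μ F).toReal → μ (F ∩ thin Γ R) ≤ ENNReal.ofReal ε * μ F →
    ∃ (n : ℕ) (N : Net Γ η D (1 / (C * (1 + (μ F).toReal)) ^ 2) (10 * D) n),
      (n : ℝ) ≤ C * (1 + (μ F).toReal) ∧
      (N.E1.ncard : ℝ) ≤ (μ F).toReal / 5 ∧
      (N.B.ncard : ℝ) ≤ Real.exp (- K * D) * (μ F).toReal :=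
  exists_net_thick_of exists_Z separation

/-- [C] Counting nets up to closeness. -/
theorem card_nets : ∃ K₀ K₁ : ℝ, 0 < K₀ ∧ 0 < K₁ ∧ ∃ η₀ : ℝ, 0 < η₀ ∧ ∀ η : ℝ, 0 < η → η ≤ η₀ →
    ∀ D : ℝ, 1 ≤ D → ∀ ρ cb Cn : ℝ, 0 < ρ → 0 < cb → 1 ≤ Cn → ∃ C : ℝ, 1 ≤ C ∧
    ∀ V : ℝ, C ≤ V → ∀ β : ℝ, 0 ≤ β → ∀ n : ℕ, (n : ℝ) ≤ Cn * V →
    ∀ (ι : Type) [Fintype ι] (Γ : ι → Subgroup GLI) (N : ∀ i, Net (Γ i) η D (1 / (Cn * V) ^ 2) (10 * D) n),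
      (∀ i, Disc (Γ i)) →
      (∀ i, ((N i).E1.ncard : ℝ) ≤ V / 5) →
      (∀ i, ((N i).B.ncard : ℝ) ≤ β * V) →
      (∀ i j, i ≠ j → ¬ Close (N i) (N j) ρ (cb * (1 / (Cn * V) ^ 2))) →
      (Fintype.card ι : ℝ) ≤
        Real.exp ((1 / 5 + K₁ * Real.exp (K₀ * D) * β) * V * Real.log V + C * (1 + β) * V) :=
  Fin.card_nets

end Pool.Agent.helper21.WB
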